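import Mathlib
import Pool.Agent.J4H59.PJ.Jobs
import Pool.Agent.J4H51.PJ.Shift

set_option autoImplicit false

/-! Job HYP for helper59 (row MP_6a95c2_gt). -/

namespace Pool.Agent.J4H53.PJ

open SimpleGraph Function
open Pool.Agent.J4H51.PJ (through isom)

variable {V : Type} {T : SimpleGraph V}

/-- the first step of a geodesic -/
theorem step (hT : T.IsTree) {x w : V} {k : ℕ} (h : T.dist x w = k + 1) :
    ∃ z, T.Adj x z ∧ T.dist z w = k := by
  obtain ⟨p, hp⟩ := hT.1.exists_walk_length_eq_dist x w
  rw [h] at hp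
  cases p with
  | nil => simp at hp
  | @cons _ z _ hxz q =>
    rw [Walk.length_cons] at hp
    refine ⟨z, hxz, ?_⟩
    have h1 : T.dist z w ≤ q.length := dist_le _
    have h2 : T.dist x w ≤ T.dist x z + T.dist z w := hT.1.dist_triangle
    have h3 : T.dist x z = 1 := dist_eq_one_iff_adj.2 hxz
    omega

/-- it is unique -/
theorem step_unique (hT : T.IsTree) {x w z z' : V} {k : ℕ} (h : T.Adj x z) (h' : T.Adj x z')
    (e : T.dist x w = k + 1) (e1 : T.dist z w = k) (e2 : T.dist z' w = k) : z' = z := by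
  by_contra hne
  have d1 : T.dist x z = 1 := dist_eq_one_iff_adj.2 h
  have d2 : T.dist x z' = 1 := dist_eq_one_iff_adj.2 h'
  have d3 : T.dist z' x = 1 := by rw [dist_comm]; exact d2
  have d4 : T.dist z' z ≠ 0 := fun h0 => hne (hT.1.dist_eq_zero_iff.1 h0)
  have d5 := hT.dist_eq_dist_add_one_of_adj z' h
  have d6 : T.dist z' z = T.dist z' x + 1 := by omega
  have d7 : T.dist w x = T.dist w z + 1 := by
    rw [dist_comm (u := w) (v := x), dist_comm (u := w) (v := z)]
    omega
  have := through hT h d6 d7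
  omega

theorem hyp : Pool.Agent.J4H59.PJ.HypStatement := by
  intro V T hT H _ _ hadj t ht x₀
  have iso := isom hT hadj
  obtain ⟨d, hd⟩ : ∃ d, d = T.dist x₀ (t • x₀) := ⟨_, rfl⟩
  induction d using Nat.strong_induction_on generalizing x₀ with
  | _ d ih =>
    have hne : t • x₀ ≠ x₀ := fun h => ht x₀ (by rw [h, h])
    have hd0 : T.dist x₀ (t • x₀) ≠ 0 := fun h0 => hne (hT.1.dist_eq_zero_iff.1 h0).symm
    obtain ⟨k, hk⟩ : ∃ k, T.dist x₀ (t • x₀) = k + 1 := ⟨T.dist x₀ (t • x₀) - 1, by omega⟩
    obtain ⟨z, hz, hzk⟩ := step hT hk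
    have htz : T.Adj (t • x₀) (t • z) := hadj t _ _ hz
    have d1 : T.dist x₀ z = 1 := dist_eq_one_iff_adj.2 hz
    have d2 : T.dist (t • z) (t • x₀) = 1 := by rw [iso, dist_comm, d1]
    -- `z` is fixed by the stabiliser of `x₀` and `t x₀`
    have fix : ∀ n : H, n • x₀ = x₀ → n • t • x₀ = t • x₀ → n • z = z := by
      intro n h1 h2
      refine step_unique hT hz ?_ hk hzk ?_
      · have := hadj n _ _ hz
        rwa [h1] at this
      · rw [← h2, iso, hzk]
    rcases hT.dist_eq_dist_add_one_of_adj x₀ htz with h | h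
    · -- `t z` is nearer to `x₀` than `t x₀`
      have h' : T.dist x₀ (t • z) = k := by omega
      have hk1 : k ≠ 0 := by
        intro h0
        rw [h0] at h' hzk
        have e1 := hT.1.dist_eq_zero_iff.1 h'
        have e2 := hT.1.dist_eq_zero_iff.1 hzk
        apply ht x₀
        rw [← e2, ← e1]
      have e3 : T.dist z (t • z) + 2 = k + 1 := by
        rcases hT.dist_eq_dist_add_one_of_adj (t • z) hz with g | g
        · have g1 : T.dist (t • z) x₀ = k := by rw [dist_comm]; exact h'
          have g2 : T.dist (t • z) z = T.dist z (t • z) := dist_comm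
          omega
        · exfalso
          have g1 : T.dist (t • x₀) x₀ = T.dist (t • x₀) z + 1 := by
            rw [dist_comm, hk, dist_comm, hzk]
          have g2 := through hT hz g g1
          rw [d2, dist_comm (u := t • z), h', hzk] at g2
          omega
      obtain ⟨v₀, v₁, a1, a2, a3⟩ := ih (T.dist z (t • z)) (by omega) z rfl
      refine ⟨v₀, v₁, a1, a2, fun n n1 n2 => a3 n (fix n n1 n2) ?_⟩
      -- `t z` is the first step from `t x₀` to `x₀`
      refine step_unique hT (x := t • x₀) (w := x₀) (k := k) htz ?_ (by rw [dist_comm]; exact hk)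
        (by rw [dist_comm]; exact h') ?_
      · have := hadj n _ _ htz
        rwa [n2] at this
      · have : T.dist (n • t • z) (n • x₀) = k := by rw [iso, dist_comm]; exact h'
        rwa [n1] at this
    · -- `t` shifts the edge `x₀ z`
      refine ⟨x₀, z, hz, ?_, fun n n1 n2 => ⟨n1, fix n n1 n2⟩⟩
      omega

end Pool.Agent.J4H53.PJ
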